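import Pool.Agent.W47.TM.Final
import Pool.Agent.W47.KA.Main
import Pool.Agent.W505.KA.KA1
import Pool.Agent.W978.KA.KA2

/-!
# The algebraic complexity of the digits of `π` and its stability

Let `a_1, a_2, …` be the digits of `π` in base `b`.  Change at most `k` of the digits
`a_1, …, a_L` and let `P ∈ ℚ[X, Y]` be a nonzero polynomial with `deg_Y P ≤ r` and
`P(X, s_1 X + ⋯ + s_L X^L) ≡ 0 mod X^(L+1)` for the resulting sequence `s`.  Then
`deg_X P > L / K^(r (k+1))` for all large `L`, with an absolute constant `K`.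
-/

set_option autoImplicit false

namespace Pool.Agent.Results.MP_57632f_nt.AlgebraicComplexityOfPi

open Finset Polynomial

/-- the `i`-th digit of `x` after the point in base `b` -/
noncomputable def digit (b : ℕ) (x : ℝ) (i : ℕ) : ℤ := ⌊x * (b : ℝ) ^ i⌋ % (b : ℤ)

/-- the polynomial `s_1 X + ⋯ + s_L X^L` -/
noncomputable def seqPoly (s : ℕ → ℤ) (L : ℕ) : ℚ[X] := ∑ i ∈ Icc 1 L, C (s i : ℚ) * X ^ i

/-- there is a nonzero polynomial `P` in `Y` of degree `≤ r` whose coefficients are polynomials in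
`X` over `ℚ` of degree `≤ κ` with `P(X, s_1 X + ⋯ + s_L X^L)` divisible by `X^(L+1)` -/
def AlgRelation (s : ℕ → ℤ) (r L κ : ℕ) : Prop :=
  ∃ P : ℚ[X][X], P ≠ 0 ∧ P.natDegree ≤ r ∧ (∀ j, (P.coeff j).natDegree ≤ κ) ∧
    X ^ (L + 1) ∣ P.eval (seqPoly s L)

/-- the `k`-error algebraic complexity of degree `r` of the first `L` digits of `x` in base `b`:
the least `κ` for which there are integers `s_1, …, s_L` between `-b` and `b` which differ from the
digits in at most `k` of the places `1, …, L` and satisfy an algebraic relation with these `r` and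
`κ` -/
noncomputable def errorAlgComplexity (b : ℕ) (x : ℝ) (r k L : ℕ) : ℕ :=
  sInf {κ | ∃ s : ℕ → ℤ, (∀ i, |s i| ≤ b) ∧
    ((Icc 1 L).filter fun i => s i ≠ digit b x i).card ≤ k ∧ AlgRelation s r L κ}

/-- There is an absolute constant `K ≥ 1` such that for all `r ≥ 1` and all `k`: for all large `L`
and all bases `b ≥ 2` (for instance `b = 10`) the `k`-error algebraic complexity of degree `r` of
the first `L` digits of `π` in base `b` is larger than `L / K^(r (k + 1))`, and it is at most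
`L / (r + 1) + 1`. -/
theorem result : ∃ K : ℝ, 1 ≤ K ∧ ∀ r k : ℕ, 1 ≤ r → ∃ L₀ : ℕ, ∀ L : ℕ, L₀ ≤ L →
    ∀ b : ℕ, 2 ≤ b →
      L / K ^ (r * (k + 1)) < errorAlgComplexity b Real.pi r k L ∧
        (errorAlgComplexity b Real.pi r k L : ℝ) ≤ L / (r + 1) + 1 := by
  obtain ⟨K, hK1, hK⟩ := Pool.Agent.W47.TM.piMeasure
  have hK0 : 0 < K := by linarith
  refine ⟨16 * K, by linarith, fun r k hr => ?_⟩
  obtain ⟨c, hc, hP⟩ := hK r hr
  have hr1 : (1 : ℝ) ≤ r := by exact_mod_cast hr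
  -- the constant
  obtain ⟨M, hM⟩ : ∃ M : ℝ, M = (8 * K) ^ (r * (k + 1)) := ⟨_, rfl⟩
  have hM0 : 0 < M := by rw [hM]; positivity
  obtain ⟨g, hg⟩ : ∃ g : ℝ, g = (K ^ r + 1) * ∑ i ∈ range (k + 1), ((K ^ r + 1) * (r : ℝ)) ^ i :=
    ⟨_, rfl⟩
  have hKr : 1 ≤ K ^ r := one_le_pow₀ hK1
  have hgM : g ≤ M := by
    have h1 : K ^ r + 1 ≤ (2 * K) ^ r := by
      have h2 : (2 : ℝ) ≤ 2 ^ r := by
        calc (2 : ℝ) = 2 ^ 1 := by norm_num
          _ ≤ 2 ^ r := pow_le_pow_right₀ (by norm_num) hr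
      rw [mul_pow]
      nlinarith
    have h2 : (r : ℝ) ≤ 2 ^ r := by exact_mod_cast (Nat.lt_two_pow_self (n := r)).le
    have h3 : (K ^ r + 1) * (r : ℝ) ≤ (4 * K) ^ r := by
      calc (K ^ r + 1) * (r : ℝ) ≤ (2 * K) ^ r * 2 ^ r :=
            mul_le_mul h1 h2 (by positivity) (by positivity)
        _ = (4 * K) ^ r := by rw [← mul_pow]; ring
    have h4 : (1 : ℝ) ≤ (4 * K) ^ r := one_le_pow₀ (by linarith)
    have h5 : ∑ i ∈ range (k + 1), ((K ^ r + 1) * (r : ℝ)) ^ i ≤ (k + 1) * ((4 * K) ^ r) ^ k := by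
      calc ∑ i ∈ range (k + 1), ((K ^ r + 1) * (r : ℝ)) ^ i
          ≤ ∑ _i ∈ range (k + 1), ((4 * K) ^ r) ^ k := by
            refine Finset.sum_le_sum fun i hi => ?_
            rw [mem_range] at hi
            calc ((K ^ r + 1) * (r : ℝ)) ^ i ≤ ((4 * K) ^ r) ^ i :=
                  pow_le_pow_left₀ (by positivity) h3 i
              _ ≤ ((4 * K) ^ r) ^ k := pow_le_pow_right₀ h4 (by omega)
        _ = (k + 1) * ((4 * K) ^ r) ^ k := by
            rw [Finset.sum_const, card_range, nsmul_eq_mul]; push_cast; ring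
    have h6 : ((k : ℝ) + 1) ≤ 2 ^ (r * k) := by
      have h7 : (k + 1 : ℕ) ≤ 2 ^ k := Nat.lt_two_pow_self
      have h8 : (2 : ℕ) ^ k ≤ 2 ^ (r * k) :=
        Nat.pow_le_pow_right (by norm_num) (Nat.le_mul_of_pos_left k hr)
      exact_mod_cast h7.trans h8
    rw [hg, hM]
    calc (K ^ r + 1) * ∑ i ∈ range (k + 1), ((K ^ r + 1) * (r : ℝ)) ^ i
        ≤ (2 * K) ^ r * (2 ^ (r * k) * ((4 * K) ^ r) ^ k) := by
          refine mul_le_mul h1 (h5.trans ?_) (by positivity) (by positivity)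
          exact mul_le_mul_of_nonneg_right h6 (by positivity)
      _ = (2 * K) ^ r * (8 * K) ^ (r * k) := by
          rw [← pow_mul (4 * K), ← mul_pow]; ring
      _ ≤ (8 * K) ^ r * (8 * K) ^ (r * k) := by
          refine mul_le_mul_of_nonneg_right ?_ (by positivity)
          exact pow_le_pow_left₀ (by positivity) (by linarith) r
      _ = (8 * K) ^ (r * (k + 1)) := by rw [← pow_add]; congr 1; ring
  have hg1 : 0 < g := by rw [hg]; positivity
  obtain ⟨L₀, h⟩ := Pool.Agent.W47.KA.transfer Pool.Agent.W505.KA.ka1 Pool.Agent.W978.KA.ka2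
    Real.pi r (K ^ r) (by positivity) (fun η hη => ⟨c, hc, fun P hP0 hPr H hH hcoef => by
      refine (hP P hP0 hPr H hH hcoef).trans (mul_le_mul_of_nonneg_right ?_ (abs_nonneg _))
      exact Real.rpow_le_rpow_of_exponent_le hH (by linarith)⟩) k (1 / (2 * M)) (by positivity)
  refine ⟨L₀, fun L hL b hb => ⟨?_, ?_⟩⟩
  · have h1 := h L hL b hb
    rw [← hg] at h1
    refine lt_of_le_of_lt ?_ h1
    have h2 : 1 / M ≤ 1 / g := one_div_le_one_div_of_le hg1 hgM
    have h3 : 1 / (2 * M) = 1 / M / 2 := by field_simp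
    have h4 : (16 * K) ^ (r * (k + 1)) = 2 ^ (r * (k + 1)) * M := by
      rw [hM, ← mul_pow]; ring
    have h5 : (2 : ℝ) ≤ 2 ^ (r * (k + 1)) := by
      calc (2 : ℝ) = 2 ^ 1 := by norm_num
        _ ≤ 2 ^ (r * (k + 1)) := pow_le_pow_right₀ (by norm_num) (Nat.mul_pos hr (by omega))
    have h6 : 1 / (16 * K) ^ (r * (k + 1)) ≤ 1 / (2 * M) := by
      rw [h4]
      exact one_div_le_one_div_of_le (by positivity) (mul_le_mul_of_nonneg_right h5 hM0.le)
    have h7 : (0 : ℝ) ≤ L := Nat.cast_nonneg L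
    calc (L : ℝ) / (16 * K) ^ (r * (k + 1)) = 1 / (16 * K) ^ (r * (k + 1)) * L := by ring
      _ ≤ 1 / (2 * M) * L := mul_le_mul_of_nonneg_right h6 h7
      _ ≤ (1 / g - 1 / (2 * M)) * L := by
          refine mul_le_mul_of_nonneg_right ?_ h7
          rw [h3] at h6 ⊢
          have h8 : 0 < 1 / M := by positivity
          linarith
  · have h1 := Pool.Agent.W472.AC.algRelation_of_lt b Real.pi r L ((L + 1) / (r + 1))
      (Nat.lt_mul_div_succ _ (by omega))
    have h2 : errorAlgComplexity b Real.pi r k L ≤ (L + 1) / (r + 1) := by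
      apply Nat.sInf_le
      refine ⟨digit b Real.pi, fun i => ?_, by simp, h1⟩
      have h3 := Pool.Agent.W472.AC.digit_nonneg Real.pi b (by omega) i
      have h4 := Pool.Agent.W472.AC.digit_le Real.pi b (by omega) i
      have e : digit b Real.pi i = Pool.Agent.W472.AC.digit b Real.pi i := rfl
      rw [e, abs_of_nonneg h3]
      exact h4
    have h3 : (((L + 1) / (r + 1) : ℕ) : ℝ) ≤ ((L : ℝ) + 1) / (r + 1) := by
      have := @Nat.cast_div_le ℝ _ _ _ (L + 1) (r + 1)
      push_cast at this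
      exact this
    have h4 : ((L : ℝ) + 1) / (r + 1) ≤ L / (r + 1) + 1 := by
      rw [add_div]
      have : 1 / ((r : ℝ) + 1) ≤ 1 := by
        rw [div_le_one (by positivity)]
        linarith
      linarith
    have h5 : (errorAlgComplexity b Real.pi r k L : ℝ) ≤ (((L + 1) / (r + 1) : ℕ) : ℝ) := by
      exact_mod_cast h2
    linarith

end Pool.Agent.Results.MP_57632f_nt.AlgebraicComplexityOfPi
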