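import Pool.Agent.W47.JL.Single
import Pool.Agent.H326R2.Pi.Top

/-!
# The `k`-error linear complexity of the digits of `π`

The `k`-error linear complexity of the first `L` digits of `π` is the least order of a linear
recurrence over `ℚ` which is satisfied by the digits after at most `k` of them have been changed.
It is at least `L / (6.05 + 6.05^2 + ⋯ + 6.05^(k+1)) - O(√(L log L))`, uniformly in the base and
in `k`.
-/

set_option autoImplicit false

namespace Pool.Agent.Results.MP_57632f_nt.ErrorComplexityOfPi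

open Finset

/-- the `i`-th digit of `x` after the point in base `b` -/
noncomputable def digit (b : ℕ) (x : ℝ) (i : ℕ) : ℤ := ⌊x * (b : ℝ) ^ i⌋ % (b : ℤ)

/-- The terms `s_1, …, s_L` satisfy a linear recurrence of order `m` over `ℚ`:
`s_(i+m) = c_0 s_i + … + c_(m-1) s_(i+m-1)` for `1 ≤ i ≤ L - m`. -/
def Recurrence (s : ℕ → ℤ) (L m : ℕ) : Prop :=
  ∃ c : ℕ → ℚ, ∀ i : ℕ, 1 ≤ i → i + m ≤ L →
    (s (i + m) : ℚ) = ∑ j ∈ range m, c j * (s (i + j) : ℚ)

/-- the `k`-error linear complexity of the first `L` digits of `x` in base `b`: the least order of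
a recurrence satisfied by the first `L` terms of a sequence of integers between `-b` and `b` which
differs from the sequence of digits in at most `k` of the places `1, …, L` -/
noncomputable def errorComplexity (b : ℕ) (x : ℝ) (k L : ℕ) : ℕ :=
  sInf {m | ∃ s : ℕ → ℤ, (∀ i, |s i| ≤ b) ∧
    ((Icc 1 L).filter fun i => s i ≠ digit b x i).card ≤ k ∧ Recurrence s L m}

lemma dig_abs (b : ℕ) (hb : 2 ≤ b) (x : ℝ) (i : ℕ) : |digit b x i| ≤ b := by
  unfold digit
  have hb0 : (0 : ℤ) < b := by exact_mod_cast (by omega : 0 < b)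
  rw [abs_of_nonneg (Int.emod_nonneg _ hb0.ne')]
  exact (Int.emod_lt_of_pos _ hb0).le

/-- the infimum is attained -/
lemma attained (b : ℕ) (hb : 2 ≤ b) (x : ℝ) (k L : ℕ) :
    ∃ s : ℕ → ℤ, (∀ i, |s i| ≤ b) ∧ ((Icc 1 L).filter fun i => s i ≠ digit b x i).card ≤ k ∧
      Recurrence s L (errorComplexity b x k L) := by
  refine Nat.sInf_mem (s := {m | ∃ s : ℕ → ℤ, (∀ i, |s i| ≤ b) ∧
    ((Icc 1 L).filter fun i => s i ≠ digit b x i).card ≤ k ∧ Recurrence s L m}) ?_
  exact ⟨L, digit b x, dig_abs b hb x, by simp, fun _ => 0, fun i h1 h2 => by omega⟩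

/-- small denominators -/
theorem small_den (x : ℝ) (hx : Irrational x) (n : ℕ) :
    ∃ c : ℝ, 0 < c ∧ ∀ q : ℕ, 1 ≤ q → q < n → ∀ p : ℤ, c ≤ |q * x - p| := by
  induction n with
  | zero => exact ⟨1, one_pos, fun q _ h => absurd h (Nat.not_lt_zero q)⟩
  | succ n ih =>
    obtain ⟨c, hc, h⟩ := ih
    rcases Nat.eq_zero_or_pos n with hn | hn
    · exact ⟨1, one_pos, fun q h1 h2 => by omega⟩
    · have hirr : Irrational ((n : ℝ) * x) := hx.natCast_mul (by omega)
      have hpos : 0 < |(n : ℝ) * x - round ((n : ℝ) * x)| := by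
        rw [abs_pos, sub_ne_zero]
        exact hirr.ne_int _
      refine ⟨min c |(n : ℝ) * x - round ((n : ℝ) * x)|, lt_min hc hpos, fun q h1 h2 p => ?_⟩
      rcases Nat.lt_succ_iff_lt_or_eq.1 h2 with h3 | h3
      · exact (min_le_left _ _).trans (h q h1 h3 p)
      · rw [h3]
        exact (min_le_right _ _).trans (round_le _ _)

/-- the irrationality measure of `π` for all denominators -/
theorem pi_measure : ∃ c : ℝ, 0 < c ∧ ∀ q : ℕ, 1 ≤ q → ∀ p : ℤ,
    c ≤ (q : ℝ) ^ (5.05 : ℝ) * |q * Real.pi - p| := by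
  obtain ⟨q0, hq0⟩ := Pool.Agent.H326R2.Pi.main
  obtain ⟨c, hc, hsm⟩ := small_den Real.pi irrational_pi q0
  refine ⟨min c 1, lt_min hc one_pos, fun q hq p => ?_⟩
  have hqR : (1 : ℝ) ≤ q := by exact_mod_cast hq
  have hq0R : (0 : ℝ) < q := by linarith
  rcases lt_or_ge q q0 with h | h
  · refine (min_le_left _ _).trans ((hsm q hq h p).trans ?_)
    have h1 : (1 : ℝ) ≤ (q : ℝ) ^ (5.05 : ℝ) := Real.one_le_rpow hqR (by norm_num)
    nlinarith [abs_nonneg ((q : ℝ) * Real.pi - p)]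
  · refine (min_le_right _ _).trans ?_
    have h1 := hq0 q h p
    have e1 : |Real.pi - p / q| = |q * Real.pi - p| / q := by
      rw [← abs_of_pos hq0R, ← abs_div, abs_of_pos hq0R]
      congr 1
      field_simp
    rw [e1, le_div_iff₀ hq0R] at h1
    have h2 : (1 : ℝ) = (q : ℝ) ^ (5.05 : ℝ) * ((q : ℝ) ^ (-(6.05 : ℝ)) * q) := by
      have e2 : (q : ℝ) ^ (-(6.05 : ℝ)) * q = (q : ℝ) ^ (-(5.05 : ℝ)) := by
        rw [show (-(5.05 : ℝ)) = -(6.05 : ℝ) + 1 by norm_num, Real.rpow_add hq0R, Real.rpow_one]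
      rw [e2, ← Real.rpow_add hq0R]
      norm_num
    rw [h2]
    exact mul_le_mul_of_nonneg_left h1 (by positivity)

/-- There is a constant `C` such that for all bases `b ≥ 2` (for instance `b = 10`) and all `k` and
`L` the `k`-error linear complexity `m` of the first `L` digits of `π` in base `b` satisfies
`L ≤ (6.05 + 6.05^2 + ⋯ + 6.05^(k+1)) (m + C √((m+1) log (m+2)))`. -/
theorem result : ∃ C : ℝ, ∀ b : ℕ, 2 ≤ b → ∀ k L m : ℕ, m = errorComplexity b Real.pi k L →
    (L : ℝ) ≤ (∑ j ∈ Icc 1 (k + 1), (6.05 : ℝ) ^ j) *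
      (m + C * Real.sqrt (((m : ℝ) + 1) * Real.log ((m : ℝ) + 2))) := by
  obtain ⟨c, hc, hx⟩ := pi_measure
  obtain ⟨C, hC0, hC⟩ := Pool.Agent.W47.JL.single Real.pi 6.05 c 0 (by norm_num) hc le_rfl
    (fun q hq p => by
      rw [Real.rpow_zero, mul_one, show (6.05 : ℝ) - 1 = 5.05 by norm_num]
      exact hx q hq p)
  refine ⟨C, fun b hb k L m hm => ?_⟩
  subst hm
  obtain ⟨s, hs, hE, hrec⟩ := attained b hb Real.pi k L
  have h := hC b hb L (errorComplexity b Real.pi k L) k s hs hE hrec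
  rw [← Pool.Agent.W47.JL.geom 6.05 (by norm_num) k] at h
  have e : (∑ j ∈ Icc 1 (k + 1), (6.05 : ℝ) ^ j) = ∑ i ∈ range (k + 1), (6.05 : ℝ) ^ (i + 1) := by
    rw [Finset.range_eq_Ico, Finset.sum_Ico_add' (fun j => (6.05 : ℝ) ^ j) 0 (k + 1) 1]
    rfl
  rw [e]
  exact h

end Pool.Agent.Results.MP_57632f_nt.ErrorComplexityOfPi
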