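import Pool.Agent.W301.RM.GenFreq

/-!
# The digits of almost all quotients `π / q`

For every real `ξ ≠ 0` (in particular `ξ = π`) and almost all positive integers `q < M` all blocks of
`k` digits have the right frequency in the expansion of `ξ / q` between the places `(1 + δ) log_b M`
and `N`, where `N` may be any fixed multiple of `log M`.
-/

set_option autoImplicit false

namespace Pool.Agent.Results.MP_57632f_nt.RandomQuotients

open Finset

open Classical in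
/-- Let `b ≥ 2`, `k ≥ 1`, `ξ ≠ 0` real, `δ, η, ε > 0`. There are `c > 0` and `N₀` such that for all
`N ≥ N₀`, `M ≥ b^(η N)`, all `n₀ ≤ N` with `b^n₀ ≥ M^(1+δ)` and all real `x`, all integers `0 ≤ q < M` but
at most `b^(-c N) M` have the following property: for all `n ≤ N` and all `0 ≤ a < b^k` the number of
`0 ≤ i < n` such that the digits `n₀ + i + 1, …, n₀ + i + k` after the point of `x + ξ / q` in base `b`
form the integer `a` differs from `n / b^k` by at most `ε N`. -/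
theorem result (b k : ℕ) (hb : 2 ≤ b) (hk : 1 ≤ k) (ξ : ℝ) (hξ : ξ ≠ 0) (δ η ε : ℝ) (hδ : 0 < δ)
    (hη : 0 < η) (hε : 0 < ε) :
    ∃ c : ℝ, 0 < c ∧ ∃ N₀ : ℕ, ∀ N : ℕ, N₀ ≤ N → ∀ M : ℕ, (b : ℝ) ^ (η * N) ≤ M →
      ∀ n₀ : ℕ, n₀ ≤ N → (M : ℝ) ^ (1 + δ) ≤ (b : ℝ) ^ n₀ → ∀ x : ℝ,
      (((range M).filter (fun q : ℕ => ¬ ∀ n ≤ N, ∀ a < b ^ k,
        |(((range n).filter (fun i =>
            ⌊(b : ℝ) ^ (n₀ + i + k) * (x + ξ / q)⌋ % (b : ℤ) ^ k = a)).card : ℝ) -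
          n / ((b ^ k : ℕ) : ℝ)| ≤ ε * N)).card : ℝ) ≤ (b : ℝ) ^ (-(c * N)) * M := by
  obtain ⟨c, hc, N₀, h⟩ := Pool.Agent.W301.RM.freq_shift b k hb hk (fun x => x ^ (-1 : ℝ)) (-1)
    (Pool.Agent.W301.RM.hT_pow (-1) (fun i h => by
      have : (0 : ℝ) ≤ i := Nat.cast_nonneg _
      linarith)) ξ hξ δ η ε hδ hη hε
  refine ⟨c, hc, N₀, fun N hN M hM n₀ hn₀ hMn x => ?_⟩
  have h1 := h N hN M hM n₀ hn₀ (by
    have e : δ - (-1) = 1 + δ := by ring
    rw [e]; exact hMn) x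
  simp only [Real.rpow_neg_one, ← div_eq_mul_inv] at h1
  exact h1

end Pool.Agent.Results.MP_57632f_nt.RandomQuotients
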