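import Pool.Agent.W226.MP.Place
import Pool.Agent.H326R2.Pi.Top

/-!
# The words of digits of the multiples of `π`

After every place `N` there is a place `n ≤ 6.05 N + 5.05 L + C` at which the words of length `L` of the
multiples `m π` (and of `x + m π`, for every real `x`) are as well distributed as possible: every word
of length `L` occurs there for at most `2 b` of the `m < b ^ L` and for some `m < 4 b ^ (L + 1)`. Hence
for all but few `m` all blocks have the right frequency in the window of length `L` after this place,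
and the number of `m < b ^ L` such that a given block occurs only finitely often in `x + m π` is at
most `2 b` times the number of words of length `L` which do not contain the block.
-/

set_option autoImplicit false

namespace Pool.Agent.Results.MP_57632f_nt.WordsOfMultiples

open Finset Pool.Agent.W226.MP

/-- small denominators -/
theorem small_den (x : ℝ) (hx : Irrational x) (n : ℕ) :
    ∃ c : ℝ, 0 < c ∧ ∀ q : ℕ, 1 ≤ q → q < n → ∀ p : ℤ, c ≤ |q * x - p| := by
  induction n with
  | zero => exact ⟨1, one_pos, fun q _ h => absurd h (Nat.not_lt_zero q)⟩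
  | succ n ih =>
    obtain ⟨c, hc, h⟩ := ih
    rcases Nat.eq_zero_or_pos n with hn | hn
    · exact ⟨1, one_pos, fun q h1 h2 => by omega⟩
    · have hirr : Irrational ((n : ℝ) * x) := hx.natCast_mul (by omega)
      have hpos : 0 < |(n : ℝ) * x - round ((n : ℝ) * x)| := by
        rw [abs_pos, sub_ne_zero]
        exact hirr.ne_int _
      refine ⟨min c |(n : ℝ) * x - round ((n : ℝ) * x)|, lt_min hc hpos, fun q h1 h2 p => ?_⟩
      rcases Nat.lt_succ_iff_lt_or_eq.1 h2 with h3 | h3
      · exact (min_le_left _ _).trans (h q h1 h3 p)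
      · rw [h3]
        exact (min_le_right _ _).trans (round_le _ _)

/-- the irrationality measure of `π` for all denominators -/
theorem pi_measure : ∃ c0 : ℝ, 0 < c0 ∧
    ∀ q : ℕ, 1 ≤ q → ∀ p : ℤ, c0 ≤ (q : ℝ) ^ (5.05 : ℝ) * |q * Real.pi - p| := by
  obtain ⟨q0, hq0⟩ := Pool.Agent.H326R2.Pi.main
  obtain ⟨c, hc, hsm⟩ := small_den Real.pi irrational_pi q0
  refine ⟨min c 1, lt_min hc one_pos, fun q hq p => ?_⟩
  have hqR : (1 : ℝ) ≤ q := by exact_mod_cast hq
  have hq0R : (0 : ℝ) < q := by linarith
  rcases lt_or_ge q q0 with h | h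
  · refine (min_le_left _ _).trans ((hsm q hq h p).trans ?_)
    have h1 : (1 : ℝ) ≤ (q : ℝ) ^ (5.05 : ℝ) := Real.one_le_rpow hqR (by norm_num)
    nlinarith [abs_nonneg ((q : ℝ) * Real.pi - p)]
  · refine (min_le_right _ _).trans ?_
    have h1 := hq0 q h p
    have e1 : |Real.pi - p / q| = |q * Real.pi - p| / q := by
      rw [← abs_of_pos hq0R, ← abs_div, abs_of_pos hq0R]
      congr 1
      field_simp
    rw [e1, le_div_iff₀ hq0R] at h1
    have h2 : (1 : ℝ) = (q : ℝ) ^ (5.05 : ℝ) * ((q : ℝ) ^ (-(6.05 : ℝ)) * q) := by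
      have e2 : (q : ℝ) ^ (-(6.05 : ℝ)) * q = (q : ℝ) ^ (-(5.05 : ℝ)) := by
        rw [show (-(5.05 : ℝ)) = -(6.05 : ℝ) + 1 by norm_num, Real.rpow_add hq0R, Real.rpow_one]
      rw [e2, ← Real.rpow_add hq0R]
      norm_num
    rw [h2]
    exact mul_le_mul_of_nonneg_left h1 (by positivity)

open Classical in
/-- (1) There is a constant `C` such that for all bases `b ≥ 2`, all lengths `L` and all places `N`
there is a good place `n` for the words of length `L` of the multiples of `π` with
`N ≤ n ≤ 6.05 N + 5.05 L + C` (see `GoodPlace`). (2) For every real `x` and every set `W` of words of length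
`L`, the number of `m < b ^ L` such that all but finitely many of the words of length `L` in the
expansion of `x + m π` belong to `W` is at most `2 b |W|`. (3) In particular, for every block `w` of `k`
digits, the number of `m < b ^ L` such that `w` occurs only finitely often in `x + m π` is at most `2 b`
times the number of words of length `L` in which `w` does not occur. -/
theorem result :
    (∃ C : ℝ, ∀ b : ℕ, 2 ≤ b → ∀ L N : ℕ, ∃ n : ℕ, N ≤ n ∧
      (n : ℝ) ≤ 6.05 * N + 5.05 * L + C ∧ GoodPlace b Real.pi L n) ∧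
    (∀ b L : ℕ, 2 ≤ b → ∀ (W : Finset (Fin L → Fin b)) (x : ℝ),
      ((range (b ^ L)).filter (fun m : ℕ =>
        {p : ℕ | ∀ v ∈ W, ¬ OccursAt b L v (x + m * Real.pi) p}.Finite)).card ≤ 2 * b * W.card) ∧
    (∀ b k L : ℕ, 2 ≤ b → ∀ (w : Fin k → Fin b) (x : ℝ),
      ((range (b ^ L)).filter (fun m : ℕ =>
        {p : ℕ | OccursAt b k w (x + m * Real.pi) p}.Finite)).card
        ≤ 2 * b * (univ.filter (fun v : Fin L → Fin b => Avoids b k L w v)).card) := by
  refine ⟨?_, ?_, ?_⟩
  · obtain ⟨c0, hc0, h⟩ := pi_measure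
    obtain ⟨C, hC⟩ := place_of_measure Real.pi 5.05 c0 irrational_pi (by norm_num) hc0 h
    refine ⟨C, fun b hb L N => ?_⟩
    obtain ⟨n, h1, h2, h3⟩ := hC b hb L N
    refine ⟨n, h1, h2.trans (le_of_eq ?_), h3⟩
    norm_num
  · intro b L hb W x
    exact finite_words b L hb Real.pi irrational_pi W x
  · intro b k L hb w x
    exact finite_occ b k L hb Real.pi irrational_pi w x

end Pool.Agent.Results.MP_57632f_nt.WordsOfMultiples
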